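import Mathlib

/-!
KPZ1 (MP_7d29a1_pr, d = 1): the lower half of the seam.  Page: KPZ1_h62.md.  Coordinates: the site
`(i, k)` of this file is the site `2 k - i` in row `i`; a step is `k -> k + 1` (weight `p`) or
`k -> k` (weight `q`).  There is no parity.
-/

namespace Pool.Agent.W_7d29a1_K

open MeasureTheory ProbabilityTheory Filter Topology
open scoped ENNReal

/-- Environments. -/
abbrev Om := ℕ × ℤ → ℝ

/-- The law of the environment. -/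
noncomputable def P1 (ρ : Measure ℝ) : Measure Om := Measure.infinitePi fun _ => ρ

/-- The space-time shift. -/
def s1 (t : ℕ) (x : ℤ) (η : Om) : Om := fun s => η (s.1 + t, s.2 + x)

/-- All exponential moments. -/
def EM1 (ρ : Measure ℝ) : Prop := ∀ t : ℝ, Integrable (fun x => Real.exp (t * x)) ρ

/-- The weights. -/
noncomputable def wt (β : ℝ) (η : Om) (i : ℕ) (k : ℤ) : ℝ≥0∞ :=
  ENNReal.ofReal (Real.exp (β * η (i, k)))

/-- One row of the polymer. -/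
noncomputable def nx (p q : ℝ≥0∞) (w μ : ℤ → ℝ≥0∞) : ℤ → ℝ≥0∞ :=
  fun k => w k * (p * μ (k - 1) + q * μ k)

/-- The masses of row `i`, started from `μ`. -/
noncomputable def fl (p q : ℝ≥0∞) (β : ℝ) (η : Om) (μ : ℤ → ℝ≥0∞) : ℕ → ℤ → ℝ≥0∞
  | 0 => μ
  | (i + 1) => nx p q (wt β η (i + 1)) (fl p q β η μ i)

/-- The total mass. -/
noncomputable def tot (μ : ℤ → ℝ≥0∞) : ℝ≥0∞ := ∑' k, μ k

/-- The unit mass. -/
noncomputable def dl (x : ℤ) : ℤ → ℝ≥0∞ := fun k => if k = x then 1 else 0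

/-- Opening of the cut between `z` and `z + 1`. -/
noncomputable def op (z : ℤ) (μ : ℤ → ℝ≥0∞) : ℤ → ℝ≥0∞ :=
  fun k => if k ≤ z then μ k else if k = z + 1 then 0 else μ (k - 1)

/-- The left part. -/
noncomputable def lf (z : ℤ) (μ : ℤ → ℝ≥0∞) : ℤ → ℝ≥0∞ := fun k => if k ≤ z then μ k else 0

/-- The right part. -/
noncomputable def rg (z : ℤ) (μ : ℤ → ℝ≥0∞) : ℤ → ℝ≥0∞ := fun k => if k ≤ z then 0 else μ k

/-- The mass of the ordered pairs. -/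
noncomputable def Sp (l r : ℤ → ℝ≥0∞) : ℝ≥0∞ := ∑' k, ∑' k', if k < k' then l k * r k' else 0

/-- `q (1 - q)`. -/
def ff (q : ℝ) : ℝ := q * (1 - q)

/-- The concavity gap of the logarithm. -/
noncomputable def JJ (θ a b : ℝ) : ℝ :=
  Real.log (θ * a + (1 - θ) * b) - θ * Real.log a - (1 - θ) * Real.log b

/-- The mean of the logarithm of the total mass after `n` rows. -/
noncomputable def Psi (ρ : Measure ℝ) (p q : ℝ≥0∞) (β : ℝ) (n : ℕ) (μ : ℤ → ℝ≥0∞) : ℝ :=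
  ∫ η, Real.log (tot (fl p q β η μ n)).toReal ∂(P1 ρ)

/-- Admissible measures: finite support, finite masses, not zero. -/
structure Adm (μ : ℤ → ℝ≥0∞) : Prop where
  fin : (Function.support μ).Finite
  top : ∀ k, μ k ≠ ⊤
  pos : ∃ k, μ k ≠ 0

/-! ### Frozen statements.  The constants depend on `ρ` and `β` only, not on the weights `p`, `q` of the
steps (tilt). -/

section Leaves

variable (ρ : Measure ℝ) (β : ℝ)

/-- K1: pure analysis, one constant for all. -/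
def K1 : Prop := ∃ C : ℝ, 0 < C ∧ ∀ θ a b qa qb : ℝ, 0 ≤ θ → θ ≤ 1 → 0 < a → 0 < b →
  0 ≤ qa → qa ≤ 1 → 0 ≤ qb → qb ≤ 1 →
  ff ((θ * a * qa + (1 - θ) * b * qb) / (θ * a + (1 - θ) * b)) ≤
      θ * ff qa + (1 - θ) * ff qb + C * JJ θ a b + C * (θ * (1 - θ)) * (qa - qb) ^ 2 ∧
  θ * (1 - θ) * min ((Real.log a - Real.log b) ^ 2) 1 ≤ C * JJ θ a b

/-- K2: the row inequality.  `NL`, `NR`, `u`, `v` are fixed, `s`, `t` are the two weights. -/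
def K2 : Prop := ∃ C : ℝ, 0 < C ∧ ∀ θ NL NR u v : ℝ, 0 ≤ θ → θ ≤ 1 → 0 ≤ NL → 0 ≤ NR → 0 < u → 0 < v →
  Integrable (fun s : ℝ × ℝ => JJ θ (NL + NR + Real.exp (β * s.1) * u)
    (NL + NR + Real.exp (β * s.2) * v)) (ρ.prod ρ) ∧
  ∫ s : ℝ × ℝ, ff ((NL + θ * (Real.exp (β * s.1) * u)) /
      (NL + NR + θ * (Real.exp (β * s.1) * u) + (1 - θ) * (Real.exp (β * s.2) * v))) ∂(ρ.prod ρ) ≤
    ∫ s : ℝ × ℝ, (θ * ff ((NL + Real.exp (β * s.1) * u) / (NL + NR + Real.exp (β * s.1) * u)) +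
      (1 - θ) * ff (NL / (NL + NR + Real.exp (β * s.2) * v))) ∂(ρ.prod ρ) +
    C * ∫ s : ℝ × ℝ, JJ θ (NL + NR + Real.exp (β * s.1) * u)
      (NL + NR + Real.exp (β * s.2) * v) ∂(ρ.prod ρ)

/-- K3: the induction over the rows. -/
def K3 : Prop := ∃ C : ℝ, 0 < C ∧ ∀ p q : ℝ≥0∞, p ≠ 0 → q ≠ 0 → p ≠ ⊤ → q ≠ ⊤ → ∀ (n : ℕ)
  (μ : ℤ → ℝ≥0∞) (z : ℤ), Adm μ →
  ∫ η, ff ((tot (fl p q β η (lf z μ) n)).toReal / (tot (fl p q β η (op z μ) n)).toReal) ∂(P1 ρ) ≤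
    ∫ η, ((Sp (fl p q β η (lf z μ) n) (fl p q β η (rg z μ) n)).toReal -
      (Sp (fl p q β η (rg z μ) n) (fl p q β η (lf z μ) n)).toReal) /
        (tot (fl p q β η μ n)).toReal ^ 2 ∂(P1 ρ) +
    C * (Psi ρ p q β n (op z μ) - Psi ρ p q β n μ)

/-- The difference of the free energies of the sources `x` and `0`. -/
noncomputable def Bx (p q : ℝ≥0∞) (β : ℝ) (n : ℕ) (x : ℤ) (η : Om) : ℝ :=
  Real.log (tot (fl p q β η (dl x) n)).toReal - Real.log (tot (fl p q β η (dl 0) n)).toReal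

/-- The second moment of the difference of the sources. -/
noncomputable def Vx (ρ : Measure ℝ) (p q : ℝ≥0∞) (β : ℝ) (n : ℕ) (x : ℤ) : ℝ :=
  ∫ η, Bx p q β n x η ^ 2 ∂(P1 ρ)

/-- The probability that two replicas from `0` and `x` do not meet, for one environment, seen in row
`i` of the polymers of length `n`: `R k` is the mass from `k` in the rows `i + 1, .., n`. -/
noncomputable def sx (p q : ℝ≥0∞) (β : ℝ) (n i : ℕ) (x : ℤ) (η : Om) : ℝ :=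
  let R : ℤ → ℝ≥0∞ := fun k => tot (fl p q β (s1 i 0 η) (dl k) (n - i))
  let l : ℤ → ℝ≥0∞ := fun k => fl p q β η (dl 0) i k * R k
  let r : ℤ → ℝ≥0∞ := fun k => fl p q β η (dl x) i k * R k
  ((Sp l r).toReal - (Sp r l).toReal) / ((tot l).toReal * (tot r).toReal)

/-- The mean probability that two replicas from `0` and `x` do not meet in `n` rows. -/
noncomputable def Nx (ρ : Measure ℝ) (p q : ℝ≥0∞) (β : ℝ) (n : ℕ) (x : ℤ) : ℝ :=
  ∫ η, sx p q β n n x η ∂(P1 ρ)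

/-- K4: the lower heat inequality. -/
def K4 : Prop := ∃ c : ℝ, 0 < c ∧ ∀ p q : ℝ≥0∞, p ≠ 0 → q ≠ 0 → p ≠ ⊤ → q ≠ ⊤ → ∀ (n : ℕ) (x : ℤ),
  1 ≤ x → Vx ρ p q β n x + c * (1 - Nx ρ p q β n x) ≤ Vx ρ p q β n (x + 1)

/-- K7: no meeting, large variance. -/
def K7 : Prop := ∃ c C : ℝ, 0 < c ∧ 0 < C ∧ ∀ p q : ℝ≥0∞, p ≠ 0 → q ≠ 0 → p ≠ ⊤ → q ≠ ⊤ →
  ∀ (n : ℕ) (x : ℤ), 1 ≤ n → 1 ≤ x → 1 - c < Nx ρ p q β n x →
    c * n / x - C ≤ Vx ρ p q β n x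

/-- K8: the fluctuations are at least of order `n ^ (1/4)`. -/
def K8 : Prop := ∃ c : ℝ, 0 < c ∧ ∀ p q : ℝ≥0∞, p ≠ 0 → q ≠ 0 → p ≠ ⊤ → q ≠ ⊤ → ∀ n : ℕ, 1 ≤ n →
  c * Real.sqrt n ≤ Var[fun η => Real.log (tot (fl p q β η (dl 0) n)).toReal; P1 ρ]

end Leaves

end Pool.Agent.W_7d29a1_K
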